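import Pool.Agent.H30.Asym
import Pool.Agent.H56.Equi

/-!
Every divergent trajectory of the 3x+1 map satisfies Benford's law in base 3.
-/

set_option autoImplicit false

namespace Pool.Agent.H56.BenfordLaw

open Pool.Agent.H30 Filter Finset Topology

/-- The base-3 significand of a nonzero integer `m`: the real number `|m| / 3^e` in `[1,3)`, where
`3^e` is the largest power of `3` that is at most `|m|`. -/
noncomputable def significand (m : ℤ) : ℝ := |(m : ℝ)| / 3 ^ (Nat.log 3 m.natAbs)

lemma logb_significand {m : ℤ} (hm : m ≠ 0) :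
    Real.logb 3 (significand m) = Int.fract (Real.logb 3 |(m : ℝ)|) := by
  have h0 : (0 : ℝ) < |(m : ℝ)| := abs_pos.mpr (by exact_mod_cast hm)
  have h1 : m.natAbs ≠ 0 := Int.natAbs_ne_zero.mpr hm
  have habs : |(m : ℝ)| = (m.natAbs : ℝ) := by
    rw [Nat.cast_natAbs]; push_cast; rfl
  have hlog : ⌊Real.logb 3 |(m : ℝ)|⌋ = (Nat.log 3 m.natAbs : ℤ) := by
    rw [habs]
    have := Real.floor_logb_natCast (b := 3) (r := (m.natAbs : ℝ)) (by positivity)
    rw [Nat.cast_ofNat] at this
    rw [this, Int.log_natCast]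
  unfold significand
  rw [Real.logb_div h0.ne' (by positivity), Int.fract, hlog, Real.logb_pow]
  simp

lemma significand_pos {m : ℤ} (hm : m ≠ 0) : 0 < significand m := by
  have h0 : (0 : ℝ) < |(m : ℝ)| := abs_pos.mpr (by exact_mod_cast hm)
  unfold significand
  positivity

lemma irrational_logb : Irrational (-(Real.log 2 / Real.log 3)) := by
  rw [irrational_neg_iff]
  rintro ⟨q, hq⟩
  have h3 : 0 < Real.log 3 := Real.log_pos (by norm_num)
  have h2 : 0 < Real.log 2 := Real.log_pos (by norm_num)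
  have hqpos : 0 < q := by
    have : (0 : ℝ) < q := by rw [hq]; positivity
    exact_mod_cast this
  have e1 : (q : ℝ) * Real.log 3 = Real.log 2 := by
    rw [hq]; field_simp
  have e2 : (q.num : ℝ) * Real.log 3 = q.den * Real.log 2 := by
    have hd : (q.den : ℝ) ≠ 0 := by exact_mod_cast q.den_nz
    have : (q : ℝ) = q.num / q.den := by exact_mod_cast (Rat.num_div_den q).symm
    rw [this] at e1
    field_simp at e1
    linarith
  obtain ⟨a, ha⟩ : ∃ a : ℕ, q.num = a := ⟨q.num.toNat, by
    rw [Int.toNat_of_nonneg]; exact (Rat.num_pos.mpr hqpos).le⟩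
  have hapos : 0 < a := by
    have := Rat.num_pos.mpr hqpos
    omega
  rw [ha] at e2
  have e3 : Real.log ((3 : ℝ) ^ a) = Real.log ((2 : ℝ) ^ q.den) := by
    rw [Real.log_pow, Real.log_pow]
    exact_mod_cast e2
  have e4 : (3 : ℝ) ^ a = (2 : ℝ) ^ q.den := Real.log_injOn_pos (by simp) (by simp) e3
  have e5 : 3 ^ a = 2 ^ q.den := by exact_mod_cast e4
  have h6 : ¬ Even (3 ^ a) := by
    rw [Nat.not_even_iff_odd]
    exact Odd.pow (by decide)
  apply h6
  rw [e5]
  exact (Nat.even_pow.mpr ⟨even_two, q.den_nz⟩)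

/-- **Benford's law in base 3 for divergent trajectories.** If the trajectory of `n₀` under the
3x+1 map is divergent, then for all integers `q ≥ 1`, `r ≥ 0` and every `t ∈ [1,3]` the proportion
of `j < K` for which the base-3 significand of `T^(qj+r)(n₀)` is less than `t` tends to
`log t / log 3` as `K → ∞`. (The whole trajectory is the case `q = 1`, `r = 0`.) -/
theorem result (n₀ : ℤ) (hdiv : Tendsto (fun k : ℕ => |T^[k] n₀|) atTop atTop)
    (q r : ℕ) (hq : 1 ≤ q) (t : ℝ) (ht1 : 1 ≤ t) (ht3 : t ≤ 3) :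
    Tendsto (fun K : ℕ => (#{j ∈ range K | significand (T^[q * j + r] n₀) < t} : ℝ) / K) atTop
      (𝓝 (Real.log t / Real.log 3)) := by
  obtain ⟨C₀, _, h⟩ := asym
  obtain ⟨L, hL, h1, -⟩ := h n₀ hdiv
  have hne : ∀ k, T^[k] n₀ ≠ 0 := fun k => Div.iter_ne_zero hdiv k
  have hneR : ∀ k, (0 : ℝ) < |((T^[k] n₀ : ℤ) : ℝ)| := fun k => abs_pos.mpr (by exact_mod_cast hne k)
  have h3 : 0 < Real.log 3 := Real.log_pos (by norm_num)
  have hlog3 : Real.log 3 ≠ 0 := h3.ne'
  -- the sequence
  set x : ℕ → ℝ := fun k => Real.logb 3 |((T^[k] n₀ : ℤ) : ℝ)| - (S k n₀ : ℝ) with hx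
  have hlim : Tendsto (fun k : ℕ => x k - k * (-(Real.log 2 / Real.log 3))) atTop
      (𝓝 (Real.log |L| / Real.log 3)) := by
    have h4 : Tendsto (fun k : ℕ => Real.log |2 ^ k * ((T^[k] n₀ : ℤ) : ℝ) / 3 ^ (S k n₀)| / Real.log 3) atTop
        (𝓝 (Real.log |L| / Real.log 3)) := by
      refine Tendsto.div_const ?_ _
      exact (Real.continuousAt_log (abs_pos.mpr hL).ne').tendsto.comp (h1.abs)
    refine h4.congr fun k => ?_
    rw [hx]
    simp only
    rw [abs_div, abs_mul, abs_of_pos (show (0 : ℝ) < 2 ^ k by positivity),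
      abs_of_pos (show (0 : ℝ) < 3 ^ (S k n₀) by positivity),
      Real.log_div (by have := hneR k; positivity) (by positivity),
      Real.log_mul (by positivity) (hneR k).ne', Real.log_pow, Real.log_pow, Real.logb]
    field_simp
    ring
  -- pass to the progression
  have hmap : Tendsto (fun j : ℕ => q * j + r) atTop atTop :=
    tendsto_atTop_mono (fun j => by
      have : 1 * j ≤ q * j := Nat.mul_le_mul_right j hq
      simp only [id]
      omega) tendsto_id
  have hlim2 : Tendsto (fun j : ℕ => x (q * j + r) - j * (q * (-(Real.log 2 / Real.log 3)))) atTop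
      (𝓝 (Real.log |L| / Real.log 3 + r * (-(Real.log 2 / Real.log 3)))) := by
    refine ((hlim.comp hmap).add_const _).congr fun j => ?_
    simp only [Function.comp]
    push_cast
    ring
  have hirr : Irrational ((q : ℝ) * (-(Real.log 2 / Real.log 3))) :=
    irrational_logb.natCast_mul (by omega)
  have hfreq := Pool.Agent.H56.Equi.tendsto_freq (x := fun j => x (q * j + r)) hirr _ hlim2 (a := 0)
    (b := Real.log t / Real.log 3) le_rfl (div_nonneg (Real.log_nonneg ht1) h3.le)
    ((div_le_one h3).mpr (Real.log_le_log (by linarith) ht3))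
  rw [sub_zero] at hfreq
  refine hfreq.congr fun K => ?_
  unfold Pool.Agent.H56.Equi.freq
  congr 3
  ext j
  simp only [Finset.mem_filter, and_congr_right_iff]
  intro _
  set k := q * j + r with hk
  have e1 : Int.fract (x k) = Real.logb 3 (significand (T^[k] n₀)) := by
    rw [hx]
    simp only
    rw [logb_significand (hne k)]
    have := Int.fract_sub_natCast (Real.logb 3 |((T^[k] n₀ : ℤ) : ℝ)|) (S k n₀)
    exact this
  rw [e1]
  have hs := significand_pos (hne k)
  constructor
  · rintro ⟨_, h6⟩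
    rw [Real.logb, div_lt_div_iff_of_pos_right h3] at h6
    exact (Real.log_lt_log_iff hs (by linarith)).mp h6
  · intro h6
    refine ⟨?_, ?_⟩
    · rw [logb_significand (hne k)]
      exact Int.fract_nonneg _
    · rw [Real.logb, div_lt_div_iff_of_pos_right h3]
      exact (Real.log_lt_log_iff hs (by linarith)).mpr h6

end Pool.Agent.H56.BenfordLaw
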